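import Pool.Agent.Q54.KP.StmB

/-! # KP-DU1: edge sums -/

set_option autoImplicit false

namespace Pool.Agent.Q299.KP

open Finset Pool.Agent.Q54.KP

open Classical in
/-- indicator of the edges -/
noncomputable def ind {V : Type} [DecidableEq V] (E : Finset (Finset V)) (x y z : V) : ℝ :=
  if ed E x y z then 1 else 0

theorem ind_nonneg {V : Type} [DecidableEq V] (E : Finset (Finset V)) (x y z : V) :
    0 ≤ ind E x y z := by
  unfold ind
  split_ifs <;> norm_num

theorem ind_le_one {V : Type} [DecidableEq V] (E : Finset (Finset V)) (x y z : V) :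
    ind E x y z ≤ 1 := by
  unfold ind
  split_ifs <;> norm_num

theorem ind_comm12 {V : Type} [DecidableEq V] (E : Finset (Finset V)) (x y z : V) :
    ind E x y z = ind E y x z := by
  classical
  unfold ind
  exact if_congr (ed_comm12 E x y z) rfl rfl

theorem ind_comm23 {V : Type} [DecidableEq V] (E : Finset (Finset V)) (x y z : V) :
    ind E x y z = ind E x z y := by
  classical
  unfold ind
  exact if_congr (ed_comm23 E x y z) rfl rfl

theorem dg2_eq {V : Type} [Fintype V] [DecidableEq V] (E : Finset (Finset V)) (v : V) :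
    dg2 E v = ∑ y, ∑ z, ind E v y z := by
  classical
  unfold dg2
  rw [cnt_prod (fun (y z : V) => ed E v y z)]
  refine sum_congr rfl fun y _ => ?_
  rw [cnt_eq_sum]
  refine sum_congr rfl fun z _ => ?_
  unfold ind
  congr

/-- double counting of the weights -/
theorem sum_edges {V : Type} [Fintype V] [DecidableEq V] (E : Finset (Finset V)) (w : V → ℝ) :
    ∑ x, ∑ y, ∑ z, ind E x y z * (w x + w y + w z) = 3 * ∑ v, dg2 E v * w v := by
  have h1 : ∑ x, ∑ y, ∑ z, ind E x y z * w x = ∑ v, dg2 E v * w v := by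
    refine sum_congr rfl fun x _ => ?_
    rw [dg2_eq, sum_mul]
    refine sum_congr rfl fun y _ => ?_
    rw [sum_mul]
  have h2 : ∑ x, ∑ y, ∑ z, ind E x y z * w y = ∑ v, dg2 E v * w v := by
    rw [sum_comm, ← h1]
    refine sum_congr rfl fun y _ => sum_congr rfl fun x _ => sum_congr rfl fun z _ => ?_
    rw [ind_comm12]
  have h3 : ∑ x, ∑ y, ∑ z, ind E x y z * w z = ∑ v, dg2 E v * w v := by
    rw [← h2]
    refine sum_congr rfl fun x _ => ?_
    rw [sum_comm]
    refine sum_congr rfl fun z _ => sum_congr rfl fun y _ => ?_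
    rw [ind_comm23]
  calc ∑ x, ∑ y, ∑ z, ind E x y z * (w x + w y + w z)
      = ∑ x, ∑ y, ∑ z, ind E x y z * w x + ∑ x, ∑ y, ∑ z, ind E x y z * w y +
        ∑ x, ∑ y, ∑ z, ind E x y z * w z := by
        simp only [← sum_add_distrib, mul_add]
    _ = 3 * ∑ v, dg2 E v * w v := by rw [h1, h2, h3]; ring

theorem dg2_le {V : Type} [Fintype V] [DecidableEq V] (E : Finset (Finset V)) (v : V) :
    dg2 E v ≤ nn V ^ 2 := by
  unfold dg2
  refine (cnt_le_nn _).trans ?_
  unfold nn
  rw [Fintype.card_prod]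
  push_cast
  nlinarith

theorem D_le {V : Type} [Fintype V] [DecidableEq V] [Nonempty V] {E : Finset (Finset V)}
    {c ε D δ : ℝ} {w : V → ℝ} (h : DH E c ε D δ w) : 0 ≤ D ∧ D ≤ 2 * nn V ^ 2 := by
  obtain ⟨v⟩ := ‹Nonempty V›
  have hn : (0 : ℝ) ≤ nn V ^ 2 := sq_nonneg _
  have hD0 : 0 ≤ D := by
    have := h.hy.Dlo
    have := mul_nonneg h.c0.le hn
    linarith
  refine ⟨hD0, ?_⟩
  have h1 := h.hy.dlo v
  have h2 := dg2_le E v
  have h3 : ε ≤ 1 / 2 := by
    have := h.e1
    have := h.c1
    linarith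
  nlinarith

theorem du1 : S_DU1 := by
  classical
  intro V _ _ E c ε D δ w h
  rcases isEmpty_or_nonempty V with hV | hV
  · simp [nn]
  obtain ⟨hD0, hD2⟩ := D_le h
  have hn0 : 0 < nn V := by
    unfold nn
    exact_mod_cast Fintype.card_pos
  set n := nn V with hn
  have hps : ∀ x y z, ps E w x y z = ind E x y z * (w x + w y + w z) +
      ind E x y z * max 0 (-(w x + w y + w z)) := by
    intro x y z
    unfold ps ind
    split_ifs
    · rcases le_total 0 (w x + w y + w z) with hs | hs
      · rw [max_eq_right hs, max_eq_left (by linarith)]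
        ring
      · rw [max_eq_left hs, max_eq_right (by linarith)]
        ring
    · simp
  have hsplit : ∑ x, ∑ y, ∑ z, ps E w x y z = ∑ x, ∑ y, ∑ z, ind E x y z * (w x + w y + w z) +
      ∑ x, ∑ y, ∑ z, ind E x y z * max 0 (-(w x + w y + w z)) := by
    simp only [hps, sum_add_distrib]
  have hP : ∑ x, ∑ y, ∑ z, ind E x y z * (w x + w y + w z) ≤ 6 * ε * n ^ 2 * ∑ v, |w v| := by
    rw [sum_edges]
    have e1 : ∑ v, dg2 E v * w v = D * ∑ v, w v + ∑ v, (dg2 E v - D) * w v := by
      rw [mul_sum, ← sum_add_distrib]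
      refine sum_congr rfl fun v _ => ?_
      ring
    have e2 : ∑ v, (dg2 E v - D) * w v ≤ ε * D * ∑ v, |w v| := by
      rw [mul_sum]
      refine sum_le_sum fun v _ => ?_
      refine (le_abs_self _).trans ?_
      rw [abs_mul]
      refine mul_le_mul_of_nonneg_right ?_ (abs_nonneg _)
      rw [abs_le]
      have h1 := h.hy.dlo v
      have h2 := h.hy.dhi v
      constructor <;> linarith
    have e3 : D * ∑ v, w v ≤ 0 := mul_nonpos_of_nonneg_of_nonpos hD0 h.sum
    have e4 : ε * D * ∑ v, |w v| ≤ ε * (2 * n ^ 2) * ∑ v, |w v| := by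
      have : 0 ≤ ∑ v, |w v| := sum_nonneg fun v _ => abs_nonneg _
      exact mul_le_mul_of_nonneg_right (mul_le_mul_of_nonneg_left hD2 h.e0.le) this
    rw [e1]
    linarith
  have hN : ∑ x, ∑ y, ∑ z, ind E x y z * max 0 (-(w x + w y + w z)) ≤ 4 * δ * n ^ 3 := by
    have e1 : ∀ x y z, ind E x y z * max 0 (-(w x + w y + w z)) ≤
        δ + 3 * (if ed E x y z ∧ w x + w y + w z < -δ then (1 : ℝ) else 0) := by
      intro x y z
      have hlx := h.lo x
      have hly := h.lo y
      have hlz := h.lo z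
      have hd := h.d0
      unfold ind
      by_cases he : ed E x y z
      · by_cases hs : w x + w y + w z < -δ
        · rw [if_pos he, if_pos ⟨he, hs⟩, one_mul]
          have : max 0 (-(w x + w y + w z)) ≤ 3 := max_le (by norm_num) (by linarith)
          linarith
        · rw [if_pos he, if_neg (fun h => hs h.2), one_mul]
          have : max 0 (-(w x + w y + w z)) ≤ δ := max_le hd.le (by linarith)
          linarith
      · rw [if_neg he, if_neg (fun h => he h.1)]
        linarith
    have e2 : ∑ x, ∑ y, ∑ z, ind E x y z * max 0 (-(w x + w y + w z)) ≤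
        ∑ x, ∑ y, ∑ z, (δ + 3 * (if ed E x y z ∧ w x + w y + w z < -δ then (1 : ℝ) else 0)) :=
      sum_le_sum fun x _ => sum_le_sum fun y _ => sum_le_sum fun z _ => e1 x y z
    refine e2.trans ?_
    have e3 : ∑ x : V, ∑ y : V, ∑ z : V,
        (δ + 3 * (if ed E x y z ∧ w x + w y + w z < -δ then (1 : ℝ) else 0)) =
        δ * n ^ 3 + 3 * cnt (fun p : V × V × V =>
          ed E p.1 p.2.1 p.2.2 ∧ w p.1 + w p.2.1 + w p.2.2 < -δ) := by
      have k1 : cnt (fun p : V × V × V =>
          ed E p.1 p.2.1 p.2.2 ∧ w p.1 + w p.2.1 + w p.2.2 < -δ) =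
          ∑ x, ∑ y, ∑ z, (if ed E x y z ∧ w x + w y + w z < -δ then (1 : ℝ) else 0) := by
        rw [cnt_prod (fun (x : V) (q : V × V) => ed E x q.1 q.2 ∧ w x + w q.1 + w q.2 < -δ)]
        refine sum_congr rfl fun x _ => ?_
        rw [cnt_prod (fun (y : V) (z : V) => ed E x y z ∧ w x + w y + w z < -δ)]
        refine sum_congr rfl fun y _ => ?_
        rw [cnt_eq_sum]
      rw [k1]
      simp only [sum_add_distrib, ← mul_sum, sum_const, card_univ, nsmul_eq_mul]
      have : ((Fintype.card V : ℕ) : ℝ) = n := rfl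
      rw [this]
      ring
    rw [e3]
    have := h.few
    linarith
  rw [hsplit]
  have e : (6 * ε * (∑ v, |w v|) / n + 4 * δ) * n ^ 3 =
      6 * ε * n ^ 2 * ∑ v, |w v| + 4 * δ * n ^ 3 := by
    field_simp
  rw [e]
  linarith

end Pool.Agent.Q299.KP
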