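import Pool.Agent.Q299.KP.DU1

/-! # KP-DU2: no very large weights in the mean -/

set_option autoImplicit false

namespace Pool.Agent.Q299.KP

open Finset Pool.Agent.Q54.KP

theorem sum_abs_pairs {V : Type} [Fintype V] (w : V → ℝ) :
    ∑ x, ∑ y, (|w x| + |w y|) = 2 * nn V * ∑ v, |w v| := by
  simp only [sum_add_distrib, sum_const, card_univ, nsmul_eq_mul, ← mul_sum]
  unfold nn
  ring

theorem du2 : S_DU1 → S_DU2 := by
  classical
  intro hDU1 V _ _ E c ε D δ a w h ha hsum hδ hn0
  have hdu1 := hDU1 V E c ε D δ w h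
  have : Nonempty V := by
    by_contra hV
    rw [not_nonempty_iff] at hV
    simp [nn] at hn0
  have hD0 := (D_le h).1
  set n := nn V with hn
  have hc := h.c0
  have hc1 := h.c1
  have he := h.e1
  have he0 := h.e0
  have hδ0 := h.d0
  have hn2 : 0 < n ^ 2 := by positivity
  -- the numbers `b v`
  set b : V → ℝ := fun v => cnt (fun p : V × V => ed E v p.1 p.2 ∧ w v + w p.1 + w p.2 < -δ) with hb
  have hbsum : ∑ v, b v ≤ δ * n ^ 3 := by
    have := h.few
    rw [cnt_prod (fun (x : V) (q : V × V) => ed E x q.1 q.2 ∧ w x + w q.1 + w q.2 < -δ)] at this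
    exact this
  have hb0 : ∀ v, 0 ≤ b v := fun v => cnt_nonneg _
  set B := univ.filter (fun v => c / 4 * n ^ 2 < b v) with hB
  have hBcard : (#B : ℝ) ≤ 4 * δ * n / c := by
    have h1 : (#B : ℝ) * (c / 4 * n ^ 2) ≤ δ * n ^ 3 := by
      refine le_trans ?_ hbsum
      rw [← nsmul_eq_mul]
      refine (card_nsmul_le_sum B b _ fun v hv => (mem_filter.1 hv).2.le).trans ?_
      exact sum_le_sum_of_subset_of_nonneg (subset_univ _) fun v _ _ => hb0 v
    rw [le_div_iff₀ hc]
    have h2 : n ^ 2 * ((#B : ℝ) * c) ≤ n ^ 2 * (4 * δ * n) := by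
      have e1 : n ^ 2 * ((#B : ℝ) * c) = 4 * ((#B : ℝ) * (c / 4 * n ^ 2)) := by ring
      have e2 : n ^ 2 * (4 * δ * n) = 4 * (δ * n ^ 3) := by ring
      rw [e1, e2]
      linarith
    exact le_of_mul_le_mul_left h2 hn2
  have hdg : ∀ v, c * n ^ 2 ≤ dg2 E v := by
    intro v
    have h1 := h.hy.dlo v
    have h2 := h.hy.Dlo
    have h3 : (1 / 2) * D ≤ (1 - ε) * D := mul_le_mul_of_nonneg_right (by linarith) hD0
    linarith
  have hT : ∑ x : V, ∑ y : V, (|w x| + |w y|) = 2 * a * n ^ 2 := by
    rw [sum_abs_pairs, hsum]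
    ring
  -- (1)
  have hone : ∀ v, v ∉ B → -(4 * a / c) ≤ w v := by
    intro v hv
    by_contra hcon
    push Not at hcon
    have hbv : b v ≤ c / 4 * n ^ 2 := by
      by_contra h1
      push Not at h1
      exact hv (mem_filter.2 ⟨mem_univ _, h1⟩)
    set g := cnt (fun p : V × V => ed E v p.1 p.2 ∧ ¬ (w v + w p.1 + w p.2 < -δ)) with hg
    have hgl : dg2 E v ≤ b v + g := by
      unfold dg2
      refine (cnt_mono fun p hp => ?_).trans (cnt_or_le _ _)
      by_cases hs : w v + w p.1 + w p.2 < -δ
      · exact Or.inl ⟨hp, hs⟩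
      · exact Or.inr ⟨hp, hs⟩
    have hg2 : 3 * c / 4 * n ^ 2 ≤ g := by
      have := hdg v
      linarith
    have hq : 0 < -δ - w v := by
      have h1 : c * a / 256 ≤ 4 * a / c := by
        rw [div_le_div_iff₀ (by norm_num) hc]
        nlinarith [mul_pos ha hc, mul_pos (mul_pos ha hc) hc]
      linarith
    have hqg : (-δ - w v) * g ≤ 2 * a * n ^ 2 := by
      rw [← hT, hg, cnt_prod (fun (x y : V) => ed E v x y ∧ ¬ (w v + w x + w y < -δ)), mul_sum]
      refine sum_le_sum fun x _ => ?_
      rw [cnt_eq_sum, mul_sum]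
      refine sum_le_sum fun y _ => ?_
      split_ifs with hp
      · have h1 := le_abs_self (w x)
        have h2 := le_abs_self (w y)
        linarith [hp.2]
      · rw [mul_zero]
        positivity
    have h5 : (-δ - w v) * (3 * c / 4 * n ^ 2) ≤ 2 * a * n ^ 2 :=
      (mul_le_mul_of_nonneg_left hg2 hq.le).trans hqg
    have h6 : (-δ - w v) * (3 * c / 4) ≤ 2 * a := by
      have : n ^ 2 * ((-δ - w v) * (3 * c / 4)) ≤ n ^ 2 * (2 * a) := by linarith
      exact le_of_mul_le_mul_left this hn2
    have h7 : (4 * a / c - c * a / 256) * (3 * c / 4) < (-δ - w v) * (3 * c / 4) := by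
      apply mul_lt_mul_of_pos_right _ (by positivity)
      linarith
    have h8 : (4 * a / c - c * a / 256) * (3 * c / 4) = 3 * a - 3 * c ^ 2 * a / 1024 := by
      field_simp
      ring
    rw [h8] at h7
    have h9 : c ^ 2 * a ≤ a := by nlinarith [mul_pos hc hc]
    linarith
  -- (2)
  have htwo : ∀ v, 8 * a / c < w v → 3 * c / 4 * n ^ 2 * w v ≤ ∑ y, ∑ z, ps E w v y z := by
    intro v hv
    have h1 : ∀ y z, ind E v y z * w v - (|w y| + |w z|) ≤ ps E w v y z := by
      intro y z
      have k1 := neg_abs_le (w y)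
      have k2 := neg_abs_le (w z)
      unfold ps ind
      split_ifs
      · have := le_max_right 0 (w v + w y + w z)
        linarith
      · have := abs_nonneg (w y)
        have := abs_nonneg (w z)
        linarith
    have h2 : ∑ y, ∑ z, (ind E v y z * w v - (|w y| + |w z|)) ≤ ∑ y, ∑ z, ps E w v y z :=
      sum_le_sum fun y _ => sum_le_sum fun z _ => h1 y z
    have h3 : ∑ y, ∑ z, (ind E v y z * w v - (|w y| + |w z|)) = dg2 E v * w v - 2 * a * n ^ 2 := by
      rw [← hT, dg2_eq, sum_mul, ← sum_sub_distrib]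
      refine sum_congr rfl fun y _ => ?_
      rw [sum_mul, ← sum_sub_distrib]
    rw [h3] at h2
    have hv0 : 0 < w v := lt_trans (by positivity) hv
    have h4 := mul_le_mul_of_nonneg_right (hdg v) hv0.le
    have h5 : 8 * a < w v * c := by rwa [div_lt_iff₀ hc] at hv
    have h6 : 8 * a * n ^ 2 ≤ w v * c * n ^ 2 := mul_le_mul_of_nonneg_right h5.le hn2.le
    linarith
  have hpos : ∀ v y z, 0 ≤ ps E w v y z := by
    intro v y z
    unfold ps
    split_ifs
    · exact le_max_left _ _
    · exact le_rfl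
  have hbig : ∑ v, (if 8 * a / c < w v then w v else 0) ≤ a / 18 * n := by
    have h1 : 3 * c / 4 * n ^ 2 * ∑ v, (if 8 * a / c < w v then w v else 0) ≤
        ∑ x, ∑ y, ∑ z, ps E w x y z := by
      rw [mul_sum]
      refine sum_le_sum fun v _ => ?_
      split_ifs with hv
      · exact htwo v hv
      · rw [mul_zero]
        exact sum_nonneg fun y _ => sum_nonneg fun z _ => hpos v y z
    have h2 : (6 * ε * (∑ v, |w v|) / n + 4 * δ) * n ^ 3 ≤ (10 * c * a / 256) * n ^ 3 := by
      refine mul_le_mul_of_nonneg_right ?_ (by positivity)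
      have e1 : 6 * ε * (∑ v, |w v|) / n = 6 * ε * a := by
        rw [hsum]
        field_simp
      rw [e1]
      have := mul_le_mul_of_nonneg_right he ha.le
      linarith
    have h3 : 3 * c / 4 * n ^ 2 * ∑ v, (if 8 * a / c < w v then w v else 0) ≤
        3 * c / 4 * n ^ 2 * (a / 18 * n) := by
      refine (h1.trans (hdu1.trans h2)).trans ?_
      have e : 3 * c / 4 * n ^ 2 * (a / 18 * n) = c * a / 24 * n ^ 3 := by ring
      rw [e]
      refine mul_le_mul_of_nonneg_right ?_ (by positivity)
      have := mul_pos hc ha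
      linarith
    exact le_of_mul_le_mul_left h3 (by positivity)
  -- (3)
  have hpt : ∀ v, |w v| ≤ a / 2 + 8 * a / c * (if a / 2 ≤ |w v| ∧ |w v| ≤ 8 * a / c then (1 : ℝ) else 0)
      + (if v ∈ B then (1 : ℝ) else 0) + (if 8 * a / c < w v then w v else 0) := by
    intro v
    have hac : 0 < 8 * a / c := by positivity
    have hB1 : (0 : ℝ) ≤ (if v ∈ B then (1 : ℝ) else 0) := by split_ifs <;> norm_num
    have hw1 : (0 : ℝ) ≤ (if 8 * a / c < w v then w v else 0) := by
      split_ifs with h1
      · linarith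
      · exact le_rfl
    have hG1 : (0 : ℝ) ≤ 8 * a / c *
        (if a / 2 ≤ |w v| ∧ |w v| ≤ 8 * a / c then (1 : ℝ) else 0) := by
      apply mul_nonneg hac.le
      split_ifs <;> norm_num
    by_cases hG : a / 2 ≤ |w v| ∧ |w v| ≤ 8 * a / c
    · rw [if_pos hG, mul_one]
      linarith [hG.2]
    · rcases lt_or_ge (|w v|) (a / 2) with h1 | h1
      · linarith
      · have h2 : 8 * a / c < |w v| := by
          by_contra h3
          push Not at h3
          exact hG ⟨h1, h3⟩
        rcases lt_or_ge (w v) 0 with h3 | h3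
        · have h3' := abs_of_neg h3
          rw [h3'] at h2
          have h4 : v ∈ B := by
            by_contra h5
            have h6 := hone v h5
            have h7 : 4 * a / c < 8 * a / c := by
              rw [div_lt_div_iff_of_pos_right hc]
              linarith
            linarith
          rw [if_pos h4]
          have := h.lo v
          linarith
        · have h3' := abs_of_nonneg h3
          rw [h3'] at h2
          rw [if_pos h2] at hw1 ⊢
          linarith
  have hsumle : a * n ≤ a / 2 * n + 8 * a / c * cnt (fun v => a / 2 ≤ |w v| ∧ |w v| ≤ 8 * a / c) +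
      (#B : ℝ) + a / 18 * n := by
    have h1 := sum_le_sum fun v (_ : v ∈ (univ : Finset V)) => hpt v
    rw [hsum] at h1
    simp only [sum_add_distrib, ← mul_sum] at h1
    have e1 : ∑ _v : V, a / 2 = a / 2 * n := by
      rw [sum_const, card_univ, nsmul_eq_mul, hn]
      unfold nn
      ring
    have e2 : ∑ v : V, (if v ∈ B then (1 : ℝ) else 0) = (#B : ℝ) := by
      simp
    rw [e1, e2, ← cnt_eq_sum] at h1
    linarith
  have hB2 : (#B : ℝ) ≤ a / 64 * n := by
    refine hBcard.trans ?_
    rw [div_le_iff₀ hc]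
    have : 4 * δ * n ≤ 4 * (c * a / 256) * n :=
      mul_le_mul_of_nonneg_right (by linarith) hn0.le
    linarith
  have hlast : a / 4 * n ≤ 8 * a / c * cnt (fun v => a / 2 ≤ |w v| ∧ |w v| ≤ 8 * a / c) := by
    have := mul_pos ha hn0
    linarith
  have e : 8 * a / c * (c / 32 * n) = a / 4 * n := by
    field_simp
    ring
  rw [← e] at hlast
  exact le_of_mul_le_mul_left hlast (by positivity)

end Pool.Agent.Q299.KP
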