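import Pool.Agent.Q54.KP.StmB

/-! # KP-DU3: pigeonhole on the real line -/

set_option autoImplicit false

namespace Pool.Agent.Q299.KP

open Finset Pool.Agent.Q54.KP

theorem du3 : S_DU3 := by
  classical
  intro V _ c a w hc hc1 ha hn h
  rw [cnt_eq_card] at h
  set S := univ.filter (fun v => a / 2 ≤ |w v| ∧ |w v| ≤ 8 * a / c) with hS
  set N : ℕ := ⌊256 / c⌋₊ + 1 with hN
  set f : V → ℕ := fun v => ⌊(w v + 8 * a / c) / (a / 16)⌋₊ with hf
  have ha16 : 0 < a / 16 := by positivity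
  have h0 : ∀ v ∈ S, 0 ≤ (w v + 8 * a / c) / (a / 16) := by
    intro v hv
    have hv2 := (mem_filter.1 hv).2.2
    have := (abs_le.1 hv2).1
    apply div_nonneg _ ha16.le
    linarith
  have hmap : ∀ v ∈ S, f v ∈ range N := by
    intro v hv
    have hv2 := (mem_filter.1 hv).2.2
    have h1 := (abs_le.1 hv2).2
    rw [mem_range, hN, Nat.lt_succ_iff]
    apply Nat.floor_le_floor
    rw [div_le_iff₀ ha16]
    have e : 256 / c * (a / 16) = 8 * a / c + 8 * a / c := by
      field_simp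
      ring
    rw [e]
    linarith
  have hNc : (N : ℝ) ≤ 512 / c := by
    have h1 := Nat.floor_le (show (0 : ℝ) ≤ 256 / c by positivity)
    have h2 : (1 : ℝ) ≤ 256 / c := by
      rw [le_div_iff₀ hc]
      linarith
    have e : 512 / c = 256 / c + 256 / c := by ring
    rw [hN, e]
    push_cast
    linarith
  have hcard : (#(range N)) • (c ^ 2 / 16384 * nn V) ≤ ((#S : ℕ) : ℝ) := by
    rw [card_range, nsmul_eq_mul]
    refine le_trans ?_ h
    calc (N : ℝ) * (c ^ 2 / 16384 * nn V) ≤ 512 / c * (c ^ 2 / 16384 * nn V) :=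
          mul_le_mul_of_nonneg_right hNc (by positivity)
      _ = c / 32 * nn V := by
          field_simp
          ring
  obtain ⟨k, hk, hk2⟩ := exists_le_card_fiber_of_nsmul_le_card_of_maps_to hmap
    ⟨0, by rw [mem_range, hN]; omega⟩ hcard
  have hpos : (0 : ℝ) < ((#(S.filter fun x => f x = k) : ℕ) : ℝ) :=
    lt_of_lt_of_le (by positivity) hk2
  have hne : (S.filter fun x => f x = k).Nonempty := by
    rw [← card_pos]
    exact_mod_cast hpos
  obtain ⟨v0, hv0⟩ := hne
  obtain ⟨hv0S, hv0k⟩ := mem_filter.1 hv0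
  refine ⟨w v0, (mem_filter.1 hv0S).2.1, ?_⟩
  rw [cnt_eq_card]
  refine hk2.trans ?_
  have hsub : S.filter (fun x => f x = k) ⊆ univ.filter (fun v => |w v - w v0| ≤ a / 16) := by
    intro v hv
    obtain ⟨hvS, hvk⟩ := mem_filter.1 hv
    rw [mem_filter]
    refine ⟨mem_univ _, ?_⟩
    have e1 := Nat.floor_le (h0 v hvS)
    have e2 := Nat.lt_floor_add_one ((w v + 8 * a / c) / (a / 16))
    have e3 := Nat.floor_le (h0 v0 hv0S)
    have e4 := Nat.lt_floor_add_one ((w v0 + 8 * a / c) / (a / 16))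
    have k1 : ⌊(w v + 8 * a / c) / (a / 16)⌋₊ = k := hvk
    have k2 : ⌊(w v0 + 8 * a / c) / (a / 16)⌋₊ = k := hv0k
    rw [k1] at e1 e2
    rw [k2] at e3 e4
    rw [le_div_iff₀ ha16] at e1 e3
    rw [div_lt_iff₀ ha16] at e2 e4
    rw [abs_le]
    constructor <;> nlinarith
  exact_mod_cast card_le_card hsub

end Pool.Agent.Q299.KP
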