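import Pool.Agent.Q54.KP.StmB

/-! # KP-DU4: the doubling step -/

set_option autoImplicit false

namespace Pool.Agent.Q299.KP

open Finset Pool.Agent.Q54.KP

theorem du4 : S_DU4 := by
  classical
  intro V _ _ E c c1 η ξ r θ w hc hc1 hη hn2 hcod hbad hS
  set n := nn V with hn
  have hn0 : 0 < n := by
    by_contra hcon
    push Not at hcon
    have := mul_nonpos_of_nonneg_of_nonpos hc1.le hcon
    linarith
  set S := univ.filter (fun v => |w v - ξ| ≤ r) with hSdef
  rw [cnt_eq_card] at hS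
  set Z := cnt (fun v => |w v - (-2 * ξ)| ≤ 2 * r + θ) with hZ
  have hs2 : (2 : ℝ) ≤ (#S : ℝ) := hn2.trans hS
  -- lower bound for the bad triples
  have hpair : ∀ x ∈ S, ∀ y ∈ S, x ≠ y →
      c * n - Z ≤ cnt (fun z => ed E x y z ∧ θ < |w x + w y + w z|) := by
    intro x hx y hy hxy
    have h1 := hcod.2 x y hxy
    have h2 : cnt (fun z => ed E x y z) ≤
        cnt (fun z => ed E x y z ∧ θ < |w x + w y + w z|) + Z := by
      refine le_trans (cnt_mono (Q := fun z => (ed E x y z ∧ θ < |w x + w y + w z|) ∨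
        |w z - (-2 * ξ)| ≤ 2 * r + θ) ?_) (cnt_or_le _ _)
      intro z hz
      rcases lt_or_ge θ (|w x + w y + w z|) with h | h
      · exact Or.inl ⟨hz, h⟩
      · right
        have a1 := abs_le.1 (mem_filter.1 hx).2
        have a2 := abs_le.1 (mem_filter.1 hy).2
        have a3 := abs_le.1 h
        rw [abs_le]
        constructor <;> linarith [a1.1, a1.2, a2.1, a2.2, a3.1, a3.2]
    rw [← hn] at h1
    linarith
  have hsum : (#S : ℝ) * ((#S : ℝ) - 1) * (c * n - Z) ≤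
      cnt (fun p : V × V × V => ed E p.1 p.2.1 p.2.2 ∧ θ < |w p.1 + w p.2.1 + w p.2.2|) := by
    have e1 : cnt (fun p : V × V × V => ed E p.1 p.2.1 p.2.2 ∧ θ < |w p.1 + w p.2.1 + w p.2.2|) =
        ∑ x, ∑ y, cnt (fun z => ed E x y z ∧ θ < |w x + w y + w z|) := by
      rw [cnt_prod (fun (x : V) (q : V × V) => ed E x q.1 q.2 ∧ θ < |w x + w q.1 + w q.2|)]
      refine sum_congr rfl fun x _ => ?_
      exact cnt_prod (fun (y : V) (z : V) => ed E x y z ∧ θ < |w x + w y + w z|)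
    rw [e1]
    have e2 : ∑ x ∈ S, ∑ y ∈ S.erase x, cnt (fun z => ed E x y z ∧ θ < |w x + w y + w z|) ≤
        ∑ x, ∑ y, cnt (fun z => ed E x y z ∧ θ < |w x + w y + w z|) := by
      refine le_trans (sum_le_sum fun x _ => sum_le_sum_of_subset_of_nonneg (subset_univ _)
        fun y _ _ => cnt_nonneg _) ?_
      exact sum_le_sum_of_subset_of_nonneg (subset_univ _)
        fun x _ _ => sum_nonneg fun y _ => cnt_nonneg _
    refine le_trans ?_ e2
    have e3 : ∀ x ∈ S, ((#S : ℝ) - 1) * (c * n - Z) ≤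
        ∑ y ∈ S.erase x, cnt (fun z => ed E x y z ∧ θ < |w x + w y + w z|) := by
      intro x hx
      have hcardE : ((#(S.erase x) : ℕ) : ℝ) = (#S : ℝ) - 1 := by
        rw [card_erase_of_mem hx, Nat.cast_sub (by
          have : 0 < #S := card_pos.2 ⟨x, hx⟩
          omega)]
        simp
      rw [← hcardE, ← nsmul_eq_mul]
      refine card_nsmul_le_sum _ _ _ fun y hy => ?_
      rw [mem_erase] at hy
      exact hpair x hx y hy.2 (Ne.symm hy.1)
    rw [mul_assoc, ← nsmul_eq_mul]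
    exact card_nsmul_le_sum _ _ _ e3
  have hpos : 0 < (#S : ℝ) * ((#S : ℝ) - 1) := by
    apply mul_pos <;> linarith
  have hlow : c1 ^ 2 * n ^ 2 / 2 ≤ (#S : ℝ) * ((#S : ℝ) - 1) := by
    have h1 : (c1 * n) ^ 2 ≤ (#S : ℝ) ^ 2 := pow_le_pow_left₀ (by positivity) hS 2
    nlinarith
  have hfin : (#S : ℝ) * ((#S : ℝ) - 1) * (c * n - Z) ≤
      (#S : ℝ) * ((#S : ℝ) - 1) * (c * n / 2) := by
    refine hsum.trans (hbad.trans ?_)
    have h1 : η * n ^ 3 ≤ c1 ^ 2 * c / 4 * n ^ 3 := mul_le_mul_of_nonneg_right hη (by positivity)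
    have h2 : c1 ^ 2 * n ^ 2 / 2 * (c * n / 2) ≤ (#S : ℝ) * ((#S : ℝ) - 1) * (c * n / 2) :=
      mul_le_mul_of_nonneg_right hlow (by positivity)
    have e : c1 ^ 2 * c / 4 * n ^ 3 = c1 ^ 2 * n ^ 2 / 2 * (c * n / 2) := by ring
    linarith
  have := le_of_mul_le_mul_left hfin hpos
  linarith

end Pool.Agent.Q299.KP
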