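import Pool.Agent.Q54.KP.StmB

/-! # KP-DUA: the weights are small -/

set_option autoImplicit false

namespace Pool.Agent.Q299.KP

open Finset Pool.Agent.Q54.KP

/-- Markov inequality for the positive part -/
theorem markov_ps {V : Type} [Fintype V] [DecidableEq V] (E : Finset (Finset V)) (w : V → ℝ)
    {θ : ℝ} (hθ : 0 < θ) :
    cnt (fun p : V × V × V => ed E p.1 p.2.1 p.2.2 ∧ θ < w p.1 + w p.2.1 + w p.2.2) * θ ≤
      ∑ x, ∑ y, ∑ z, ps E w x y z := by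
  classical
  have k1 : cnt (fun p : V × V × V => ed E p.1 p.2.1 p.2.2 ∧ θ < w p.1 + w p.2.1 + w p.2.2) =
      ∑ x, ∑ y, ∑ z, (if ed E x y z ∧ θ < w x + w y + w z then (1 : ℝ) else 0) := by
    rw [cnt_prod (fun (x : V) (q : V × V) => ed E x q.1 q.2 ∧ θ < w x + w q.1 + w q.2)]
    refine sum_congr rfl fun x _ => ?_
    rw [cnt_prod (fun (y : V) (z : V) => ed E x y z ∧ θ < w x + w y + w z)]
    refine sum_congr rfl fun y _ => ?_
    rw [cnt_eq_sum]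
  rw [k1, sum_mul]
  refine sum_le_sum fun x _ => ?_
  rw [sum_mul]
  refine sum_le_sum fun y _ => ?_
  rw [sum_mul]
  refine sum_le_sum fun z _ => ?_
  unfold ps
  by_cases he : ed E x y z
  · rw [if_pos he]
    split_ifs with h
    · have := le_max_right 0 (w x + w y + w z)
      linarith [h.2]
    · rw [zero_mul]
      exact le_max_left _ _
  · rw [if_neg he, if_neg (fun h => he h.1), zero_mul]

theorem dua : S_DU1 → S_DU2 → S_DU3 → S_DU4 → S_DUA := by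
  classical
  intro h1 h2 h3 h4 c hc hc1
  obtain ⟨c1, hc1d⟩ : ∃ c1 : ℝ, c1 = c ^ 2 / 16384 := ⟨_, rfl⟩
  have hc10 : 0 < c1 := by rw [hc1d]; positivity
  have hc11 : c1 ≤ c / 2 := by
    rw [hc1d]
    nlinarith
  have hc12 : c1 ≤ 1 := by linarith
  have hc1sq : c1 ^ 2 ≤ 1 := by nlinarith
  have hcc : c1 ^ 2 * c ≤ c := by nlinarith
  have hcc0 : 0 < c1 ^ 2 * c := by positivity
  obtain ⟨ε0, hε0⟩ : ∃ ε0 : ℝ, ε0 = c1 ^ 2 * c / 2048 := ⟨_, rfl⟩
  have hε0p : 0 < ε0 := by rw [hε0]; positivity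
  refine ⟨ε0, hε0p, by rw [hε0]; linarith, fun A1 hA1 => ?_⟩
  obtain ⟨δ, hδ⟩ : ∃ δ : ℝ, δ = min (min (c * A1 / 256) (ε0 * A1 / 4)) (min (c1 ^ 2 * c / 8) (A1 / 32)) :=
    ⟨_, rfl⟩
  have hδ1 : δ ≤ c * A1 / 256 := by rw [hδ]; exact (min_le_left _ _).trans (min_le_left _ _)
  have hδ2 : δ ≤ ε0 * A1 / 4 := by rw [hδ]; exact (min_le_left _ _).trans (min_le_right _ _)
  have hδ3 : δ ≤ c1 ^ 2 * c / 8 := by rw [hδ]; exact (min_le_right _ _).trans (min_le_left _ _)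
  have hδ4 : δ ≤ A1 / 32 := by rw [hδ]; exact (min_le_right _ _).trans (min_le_right _ _)
  have hδ0 : 0 < δ := by
    rw [hδ]
    refine lt_min (lt_min ?_ ?_) (lt_min ?_ ?_) <;> positivity
  refine ⟨δ, hδ0, ⌈2 / c1⌉₊, ?_⟩
  intro V _ _ E D w hcard h
  obtain ⟨n, hn⟩ : ∃ n : ℝ, n = nn V := ⟨_, rfl⟩
  have hnc : 2 / c1 ≤ n := by
    have h5 := Nat.le_ceil (2 / c1)
    have h6 : ((⌈2 / c1⌉₊ : ℕ) : ℝ) ≤ (Fintype.card V : ℝ) := by exact_mod_cast hcard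
    rw [hn]
    exact h5.trans h6
  have hn0 : 0 < n := lt_of_lt_of_le (by positivity) hnc
  have hn2 : 2 ≤ c1 * n := by
    rw [div_le_iff₀ hc10] at hnc
    linarith
  rw [← hn]
  by_contra hcon
  push Not at hcon
  obtain ⟨a, ha⟩ : ∃ a : ℝ, a = (∑ v, |w v|) / n := ⟨_, rfl⟩
  have hsum : ∑ v, |w v| = a * n := by
    rw [ha]
    field_simp
  have haA : A1 < a := by
    rw [hsum] at hcon
    exact lt_of_mul_lt_mul_right hcon hn0.le
  have ha0 : 0 < a := hA1.trans haA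
  obtain ⟨θ, hθ⟩ : ∃ θ : ℝ, θ = a / 32 := ⟨_, rfl⟩
  have hθ0 : 0 < θ := by rw [hθ]; positivity
  have hδθ : δ ≤ θ := by rw [hθ]; linarith
  -- bad edges
  have hps := h1 V E c ε0 D δ w h
  rw [← hn] at hps
  have hpos : cnt (fun p : V × V × V => ed E p.1 p.2.1 p.2.2 ∧ θ < w p.1 + w p.2.1 + w p.2.2) ≤
      224 * ε0 * n ^ 3 := by
    have e1 := (markov_ps E w hθ0).trans hps
    have e2 : 6 * ε0 * (∑ v, |w v|) / n = 6 * ε0 * a := by
      rw [hsum]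
      field_simp
    rw [e2] at e1
    have e3 : 4 * δ ≤ ε0 * a := by
      have := mul_le_mul_of_nonneg_left haA.le hε0p.le
      linarith
    have e4 : (6 * ε0 * a + 4 * δ) * n ^ 3 ≤ 7 * ε0 * a * n ^ 3 :=
      mul_le_mul_of_nonneg_right (by linarith) (by positivity)
    have e5 : 224 * ε0 * n ^ 3 * θ = 7 * ε0 * a * n ^ 3 := by
      rw [hθ]; ring
    have e6 := e1.trans e4
    rw [← e5] at e6
    exact le_of_mul_le_mul_right e6 hθ0
  have hbad : cnt (fun p : V × V × V => ed E p.1 p.2.1 p.2.2 ∧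
      θ < |w p.1 + w p.2.1 + w p.2.2|) ≤ (224 * ε0 + δ) * n ^ 3 := by
    have e1 := h.few
    rw [← hn] at e1
    refine (cnt_mono (Q := fun p : V × V × V =>
      (ed E p.1 p.2.1 p.2.2 ∧ θ < w p.1 + w p.2.1 + w p.2.2) ∨
      (ed E p.1 p.2.1 p.2.2 ∧ w p.1 + w p.2.1 + w p.2.2 < -δ)) ?_).trans ((cnt_or_le _ _).trans ?_)
    · rintro p ⟨hp1, hp2⟩
      rcases lt_or_ge 0 (w p.1 + w p.2.1 + w p.2.2) with hs | hs
      · rw [abs_of_pos hs] at hp2
        exact Or.inl ⟨hp1, hp2⟩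
      · rw [abs_of_nonpos hs] at hp2
        exact Or.inr ⟨hp1, by linarith⟩
    · linarith
  have hη : 224 * ε0 + δ ≤ c1 ^ 2 * c / 4 := by
    rw [hε0]
    linarith
  have hca : δ ≤ c * a / 256 := by
    have := mul_le_mul_of_nonneg_left haA.le hc.le
    linarith
  have hdu2 := h2 V E c ε0 D δ a w h ha0 (by rw [hsum, hn]) hca (by rw [← hn]; exact hn0)
  obtain ⟨ξ, hξ, hξ2⟩ := h3 V c a w hc hc1 ha0 (by rw [← hn]; exact hn0) hdu2
  rw [← hc1d, ← hn] at hξ2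
  -- doubling
  have hdouble : ∀ (ξ' r : ℝ), c1 * n ≤ cnt (fun v => |w v - ξ'| ≤ r) →
      c / 2 * n ≤ cnt (fun v => |w v - (-2 * ξ')| ≤ 2 * r + θ) := by
    intro ξ' r hr
    have := h4 V E c c1 (224 * ε0 + δ) ξ' r θ w hc hc10 hη (by rw [← hn]; exact hn2) h.hy.cod
      (by rw [← hn]; exact hbad) (by rw [← hn]; exact hr)
    rw [← hn] at this
    exact this
  have hcn : c1 * n ≤ c / 2 * n := mul_le_mul_of_nonneg_right hc11 hn0.le
  have hstep : ∀ k : ℕ, c1 * n ≤ cnt (fun v => |w v - (-2) ^ k * ξ| ≤ 2 ^ k * (3 * a / 32) - a / 32) := by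
    intro k
    induction k with
    | zero =>
      refine hξ2.trans (cnt_mono fun v hv => ?_)
      rw [pow_zero, pow_zero, one_mul, one_mul]
      linarith
    | succ k ih =>
      refine hcn.trans ((hdouble _ _ ih).trans (cnt_mono fun v hv => ?_))
      have e1 : (-2 : ℝ) ^ (k + 1) * ξ = -2 * ((-2) ^ k * ξ) := by ring
      have e2 : (2 : ℝ) ^ (k + 1) * (3 * a / 32) - a / 32 =
          2 * (2 ^ k * (3 * a / 32) - a / 32) + θ := by rw [hθ]; ring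
      rw [e1, e2]
      exact hv
  obtain ⟨m, hm⟩ := pow_unbounded_of_one_lt (6 / c) (show (1 : ℝ) < 2 by norm_num)
  have hlast : c / 2 * n ≤ cnt (fun v => |w v - (-2) ^ (m + 1) * ξ| ≤
      2 ^ (m + 1) * (3 * a / 32) - a / 32) := by
    refine (hdouble _ _ (hstep m)).trans (cnt_mono fun v hv => ?_)
    have e1 : (-2 : ℝ) ^ (m + 1) * ξ = -2 * ((-2) ^ m * ξ) := by ring
    have e2 : (2 : ℝ) ^ (m + 1) * (3 * a / 32) - a / 32 =
        2 * (2 ^ m * (3 * a / 32) - a / 32) + θ := by rw [hθ]; ring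
    rw [e1, e2]
    exact hv
  have hbig : ∀ v, |w v - (-2) ^ (m + 1) * ξ| ≤ 2 ^ (m + 1) * (3 * a / 32) - a / 32 →
      2 ^ (m + 1) * (a / 3) ≤ |w v| := by
    intro v hv
    have e1 : |(-2 : ℝ) ^ (m + 1) * ξ| = 2 ^ (m + 1) * |ξ| := by
      rw [abs_mul, abs_pow, abs_neg, abs_of_pos (show (0 : ℝ) < 2 by norm_num)]
    have e2 : |(-2 : ℝ) ^ (m + 1) * ξ| ≤ |w v| + |w v - (-2) ^ (m + 1) * ξ| := by
      have := abs_sub_abs_le_abs_sub ((-2 : ℝ) ^ (m + 1) * ξ) (w v)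
      rw [abs_sub_comm] at this
      linarith
    have e3 : (2 : ℝ) ^ (m + 1) * (a / 2) ≤ 2 ^ (m + 1) * |ξ| :=
      mul_le_mul_of_nonneg_left hξ (by positivity)
    rw [e1] at e2
    have e4 : (0 : ℝ) < 2 ^ (m + 1) * a := by positivity
    linarith
  have hfinal : cnt (fun v => |w v - (-2) ^ (m + 1) * ξ| ≤
      2 ^ (m + 1) * (3 * a / 32) - a / 32) * (2 ^ (m + 1) * (a / 3)) ≤ a * n := by
    rw [← hsum, cnt_eq_sum, sum_mul]
    refine sum_le_sum fun v _ => ?_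
    split_ifs with hv
    · rw [one_mul]
      exact hbig v hv
    · rw [zero_mul]
      exact abs_nonneg _
  have h6 : c / 2 * n * (2 ^ (m + 1) * (a / 3)) ≤ a * n :=
    (mul_le_mul_of_nonneg_right hlast (by positivity)).trans hfinal
  rw [div_lt_iff₀ hc] at hm
  have h7 : (0 : ℝ) < a * n := by positivity
  have e : c / 2 * n * (2 ^ (m + 1) * (a / 3)) = (2 ^ m * c) * (a * n) / 3 := by ring
  rw [e] at h6
  have h8 : 6 * (a * n) < 2 ^ m * c * (a * n) := mul_lt_mul_of_pos_right hm h7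
  linarith

end Pool.Agent.Q299.KP
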