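import Pool.Agent.Q54.KP.StmB

/-! # KP-KKT: minimum of a quadratic function on a box -/

set_option autoImplicit false

namespace Pool.Agent.Q299.KP

open Finset Pool.Agent.Q54.KP

section
variable {V ι : Type} [Fintype V] [DecidableEq V] [Fintype ι]

open Classical in
omit [Fintype V] in
theorem ld_eq (K : Finset (ι → V)) (ω : (ι → V) → ℝ) (v : V) :
    ld K ω v = ∑ κ ∈ K, if v ∈ univ.image κ then ω κ else 0 := by
  unfold ld
  rw [sum_filter]
  refine sum_congr rfl fun κ _ => ?_
  refine if_congr ?_ rfl rfl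
  simp

open Classical in
omit [Fintype V] in
/-- the load after the change of one weight -/
theorem ld_update (K : Finset (ι → V)) (ω : (ι → V) → ℝ) (v : V) {κ : ι → V} (hκ : κ ∈ K) (s : ℝ) :
    ld K (Function.update ω κ (ω κ + s)) v = ld K ω v + (if v ∈ univ.image κ then s else 0) := by
  rw [ld_eq, ld_eq, ← add_sum_erase _ _ hκ, ← add_sum_erase _ _ hκ, Function.update_self]
  have h1 : ∑ x ∈ K.erase κ, (if v ∈ univ.image x then Function.update ω κ (ω κ + s) x else 0) =
      ∑ x ∈ K.erase κ, (if v ∈ univ.image x then ω x else 0) := by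
    refine sum_congr rfl fun x hx => ?_
    rw [Function.update_of_ne (ne_of_mem_erase hx)]
  rw [h1]
  split_ifs <;> ring

open Classical in
/-- the change of the quadratic function -/
theorem phi_update (K : Finset (ι → V)) (ω : (ι → V) → ℝ) {κ : ι → V} (hκ : κ ∈ K)
    (hinj : Function.Injective κ) (s : ℝ) :
    ∑ v, (1 - ld K (Function.update ω κ (ω κ + s)) v) ^ 2 =
      ∑ v, (1 - ld K ω v) ^ 2 - 2 * s * ∑ i, (1 - ld K ω (κ i)) + s ^ 2 * Fintype.card ι := by
  have h1 : ∀ v, (1 - ld K (Function.update ω κ (ω κ + s)) v) ^ 2 = (1 - ld K ω v) ^ 2 +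
      (if v ∈ univ.image κ then -2 * s * (1 - ld K ω v) + s ^ 2 else 0) := by
    intro v
    rw [ld_update K ω v hκ s]
    split_ifs <;> ring
  simp only [h1, sum_add_distrib]
  have h2 : ∑ v, (if v ∈ univ.image κ then -2 * s * (1 - ld K ω v) + s ^ 2 else 0) =
      ∑ i, (-2 * s * (1 - ld K ω (κ i)) + s ^ 2) := by
    rw [← sum_filter, filter_mem_eq_inter, univ_inter, sum_image fun x _ y _ h => hinj h]
  rw [h2, sum_add_distrib, ← mul_sum, sum_const, card_univ, nsmul_eq_mul]
  ring

end

theorem kkt : S_KKT := by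
  classical
  intro V ι _ _ _ K cap hcap hinj
  set Φ : ((ι → V) → ℝ) → ℝ := fun ω => ∑ v, (1 - ld K ω v) ^ 2 with hΦ
  set Ω : Set ((ι → V) → ℝ) := Set.univ.pi (fun κ => if κ ∈ K then Set.Icc 0 cap else {0}) with hΩ
  have hcomp : IsCompact Ω := by
    apply isCompact_univ_pi
    intro κ
    split_ifs
    · exact isCompact_Icc
    · exact isCompact_singleton
  have h0 : (0 : (ι → V) → ℝ) ∈ Ω := by
    intro κ _
    simp only [Pi.zero_apply]
    split_ifs
    · exact ⟨le_rfl, hcap.le⟩
    · rfl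
  have hcont : Continuous Φ := by
    simp only [hΦ]
    refine continuous_finsetSum _ fun v _ => ?_
    refine Continuous.pow (continuous_const.sub ?_) 2
    unfold ld
    exact continuous_finsetSum _ fun κ _ => continuous_apply κ
  obtain ⟨ω, hωΩ, hmin⟩ := hcomp.exists_isMinOn ⟨0, h0⟩ hcont.continuousOn
  have hin : ∀ κ ∈ K, 0 ≤ ω κ ∧ ω κ ≤ cap := by
    intro κ hκ
    have := hωΩ κ (Set.mem_univ _)
    simp only [if_pos hκ] at this
    exact this
  have hout : ∀ κ, κ ∉ K → ω κ = 0 := by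
    intro κ hκ
    have := hωΩ κ (Set.mem_univ _)
    simp only [if_neg hκ] at this
    exact this
  -- a variation
  have hvar : ∀ κ ∈ K, ∀ s : ℝ, 0 ≤ ω κ + s → ω κ + s ≤ cap →
      0 ≤ - 2 * s * ∑ i, (1 - ld K ω (κ i)) + s ^ 2 * Fintype.card ι := by
    intro κ hκ s h1 h2
    have hmem : Function.update ω κ (ω κ + s) ∈ Ω := by
      intro κ' _
      by_cases he : κ' = κ
      · subst he
        rw [Function.update_self]
        simp only [if_pos hκ]
        exact ⟨h1, h2⟩
      · rw [Function.update_of_ne he]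
        exact hωΩ κ' (Set.mem_univ _)
    have h3 : Φ ω ≤ Φ (Function.update ω κ (ω κ + s)) := hmin hmem
    simp only [hΦ] at h3
    rw [phi_update K ω hκ (hinj κ hκ) s] at h3
    linarith
  have hle : ∀ κ ∈ K, ω κ < cap → ∑ i, (1 - ld K ω (κ i)) ≤ 0 := by
    intro κ hκ hlt
    by_contra hcon
    push Not at hcon
    set σ := ∑ i, (1 - ld K ω (κ i)) with hσ
    have hc1 : (0 : ℝ) < Fintype.card ι + 1 := by positivity
    set s := min (cap - ω κ) (σ / (Fintype.card ι + 1)) with hs
    have hs0 : 0 < s := lt_min (by linarith) (by positivity)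
    have h1 := hvar κ hκ s (by linarith [(hin κ hκ).1]) (by
      have := min_le_left (cap - ω κ) (σ / (Fintype.card ι + 1))
      linarith)
    have h2 : s * (Fintype.card ι + 1) ≤ σ := by
      have := min_le_right (cap - ω κ) (σ / (Fintype.card ι + 1))
      rwa [← hs, le_div_iff₀ hc1] at this
    have h3 : s * (s * (Fintype.card ι + 1)) ≤ s * σ := mul_le_mul_of_nonneg_left h2 hs0.le
    have h4 : 0 < s * σ := mul_pos hs0 hcon
    nlinarith [sq_nonneg s]
  have hge : ∀ κ ∈ K, 0 < ω κ → 0 ≤ ∑ i, (1 - ld K ω (κ i)) := by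
    intro κ hκ hlt
    by_contra hcon
    push Not at hcon
    set σ := ∑ i, (1 - ld K ω (κ i)) with hσ
    have hc1 : (0 : ℝ) < Fintype.card ι + 1 := by positivity
    have hσ' : 0 < -σ := by linarith
    set s := min (ω κ) (-σ / (Fintype.card ι + 1)) with hs
    have hs0 : 0 < s := lt_min hlt (by positivity)
    have h1 := hvar κ hκ (-s) (by
      have := min_le_left (ω κ) (-σ / (Fintype.card ι + 1))
      linarith) (by linarith [(hin κ hκ).2])
    have h2 : s * (Fintype.card ι + 1) ≤ -σ := by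
      have := min_le_right (ω κ) (-σ / (Fintype.card ι + 1))
      rwa [← hs, le_div_iff₀ hc1] at this
    have h3 : s * (s * (Fintype.card ι + 1)) ≤ s * -σ := mul_le_mul_of_nonneg_left h2 hs0.le
    have h4 : 0 < s * -σ := mul_pos hs0 hσ'
    nlinarith [sq_nonneg s]
  refine ⟨ω, fun κ => ?_, hout, hle, ?_, ?_⟩
  · by_cases hκ : κ ∈ K
    · exact hin κ hκ
    · rw [hout κ hκ]
      exact ⟨le_rfl, hcap.le⟩
  · have h1 : 0 ≤ ∑ κ ∈ K, ω κ * ∑ i, (1 - ld K ω (κ i)) := by
      refine sum_nonneg fun κ hκ => ?_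
      rcases (hin κ hκ).1.eq_or_lt with h | h
      · rw [← h, zero_mul]
      · exact mul_nonneg h.le (hge κ hκ h)
    have h2 : ∑ κ ∈ K, ω κ * ∑ i, (1 - ld K ω (κ i)) = ∑ v, (1 - ld K ω v) * ld K ω v := by
      have e1 : ∀ κ ∈ K, ω κ * ∑ i, (1 - ld K ω (κ i)) =
          ∑ v, (1 - ld K ω v) * (if v ∈ univ.image κ then ω κ else 0) := by
        intro κ hκ
        have e2 : ∑ i, (1 - ld K ω (κ i)) = ∑ v ∈ univ.image κ, (1 - ld K ω v) := by
          rw [sum_image fun x _ y _ h => hinj κ hκ h]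
        have e3 : ∑ v, (1 - ld K ω v) * (if v ∈ univ.image κ then ω κ else 0) =
            ∑ v ∈ univ.image κ, (1 - ld K ω v) * ω κ := by
          simp only [mul_ite, mul_zero]
          rw [← sum_filter, filter_mem_eq_inter, univ_inter]
        rw [e2, e3, mul_sum]
        refine sum_congr rfl fun v _ => ?_
        ring
      rw [sum_congr rfl e1, sum_comm]
      refine sum_congr rfl fun v _ => ?_
      rw [ld_eq, mul_sum]
    rw [h2] at h1
    have h3 : ∑ v, (1 - ld K ω v) * ld K ω v = ∑ v, (1 - ld K ω v) - ∑ v, (1 - ld K ω v) ^ 2 := by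
      rw [← sum_sub_distrib]
      refine sum_congr rfl fun v _ => ?_
      ring
    linarith
  · have h1 : Φ ω ≤ Φ 0 := hmin h0
    have h2 : Φ 0 = nn V := by
      simp only [hΦ]
      have : ∀ v, ld K (0 : (ι → V) → ℝ) v = 0 := by
        intro v
        unfold ld
        simp
      simp [this, nn]
    rw [h2] at h1
    exact h1

end Pool.Agent.Q299.KP
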